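import Pool.Agent.N929.AC.Stm
import Pool.Agent.N607.EG.Bij

/-!
# Project AC, EXP: the expansion of `PL` in powers of `z` (helper562)
-/

set_option autoImplicit false

namespace Pool.Agent.N562.AC

open Finset Pool.Agent.N929.EG Pool.Agent.N929.AC
open scoped Classical

noncomputable section

variable {α σ : Type} {Y : TS α σ} {L : Finset σ} {st : α → α} {fl : α → Finset σ → α}

theorem mem_Co {N : ℕ} {w : α} : w ∈ Co Y L N ↔ Em Y L w ∧ Y.len w ≤ N := by
  unfold Co Em
  rw [mem_filter, mem_biUnion]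
  constructor
  · rintro ⟨⟨n, hn, hw⟩, ho⟩
    have h1 := Y.len_K n w hw
    rw [mem_range] at hn
    refine ⟨⟨by rw [h1]; exact hw, ho⟩, by omega⟩
  · rintro ⟨⟨hw, ho⟩, hN⟩
    exact ⟨⟨Y.len w, by rw [mem_range]; omega, hw⟩, ho⟩

theorem fl_inv (h : Fill Y L st fl) {F : α → ℝ}
    (hF : ∀ n, ∀ w ∈ Y.K n, ∀ q ∈ Y.S w, F (Y.ins w q) = F w) {w : α} (hw : Em Y L w)
    (U : Finset σ) : U ⊆ Sl Y L w → F (fl w U) = F w := by
  refine Finset.induction_on U ?_ ?_
  · intro _
    rw [h.fl_empty w hw]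
  · intro q U hq ih hU
    have h1 : U ⊆ Sl Y L w := (subset_insert q U).trans hU
    have h2 : q ∈ Sl Y L w := hU (mem_insert_self q U)
    obtain ⟨h3, h4⟩ := h.fl_insert w U q hw h1 h2 hq
    rw [h4, hF _ _ (h.fl_K w U hw h1) q h3, ih h1]

theorem expT : S_EXP := by
  intro α σ Y F hF L hL N
  obtain ⟨st, fl, h⟩ := Pool.Agent.N607.EG.bij α σ Y L hL
  have hlen : ∀ w U, Em Y L w → U ⊆ Sl Y L w → Y.len (fl w U) = Y.len w + Y.s * U.card :=
    fun w U hw hU => Y.len_K _ _ (h.fl_K w U hw hU)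
  refine ⟨((Co Y L N).sigma (fun w => (Sl Y L w).powerset)).image (fun x => fl x.1 x.2), ?_, ?_, ?_⟩
  · intro v hv
    rw [mem_image] at hv
    obtain ⟨⟨w, U⟩, hx, rfl⟩ := hv
    rw [mem_sigma, mem_powerset] at hx
    simp only at hx ⊢
    have hw := (mem_Co.1 hx.1).1
    rw [hlen w U hw hx.2]
    exact h.fl_K w U hw hx.2
  · intro n hn v hv
    have h0 := Y.len_K n v hv
    have hv' : v ∈ Y.K (Y.len v) := by rw [h0]; exact hv
    rw [mem_image]
    refine ⟨⟨st v, Oc Y L v⟩, ?_, h.fl_st v hv'⟩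
    rw [mem_sigma, mem_powerset]
    simp only
    refine ⟨mem_Co.2 ⟨h.st_em v hv', ?_⟩, ?_⟩
    · have := h.st_len v hv'
      omega
    · rw [h.st_sl v hv']
      intro q hq
      unfold Oc at hq
      unfold Sl
      rw [mem_filter] at hq ⊢
      exact ⟨hq.1, Or.inr hq.2⟩
  · intro z
    rw [sum_image]
    · rw [sum_sigma]
      unfold PL
      refine sum_congr rfl fun w hw => ?_
      have hw' := (mem_Co.1 hw).1
      have e3 : (1 + z ^ Y.s) ^ (Sl Y L w).card =
          ∑ U ∈ (Sl Y L w).powerset, (z ^ Y.s) ^ U.card := by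
        have := Finset.sum_pow_mul_eq_add_pow (z ^ Y.s) 1 (Sl Y L w)
        simp only [one_pow, mul_one] at this
        rw [this, add_comm]
      rw [e3, mul_sum]
      refine sum_congr rfl fun U hU => ?_
      rw [mem_powerset] at hU
      rw [hlen w U hw' hU, fl_inv h hF hw' U hU, pow_add, pow_mul]
      ring
    · rintro ⟨w, U⟩ hx ⟨w', U'⟩ hx' hxx
      rw [mem_coe, mem_sigma, mem_powerset] at hx hx'
      simp only at hx hx' hxx
      have hw := (mem_Co.1 hx.1).1
      have hw' := (mem_Co.1 hx'.1).1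
      have e1 : w = w' := by
        rw [← h.st_fl w U hw hx.2, ← h.st_fl w' U' hw' hx'.2, hxx]
      have e2 : U = U' := by
        rw [← h.fl_oc w U hw hx.2, ← h.fl_oc w' U' hw' hx'.2, hxx]
      subst e1
      subst e2
      rfl

end

end Pool.Agent.N562.AC
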